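import Mathlib

/-!
# Bifurcation radius versus distance to the Mandelbrot boundary (MP_77ccbb_an, Q2)

There is a non-real parameter `c` in the interior of the Mandelbrot set with
`r_bif(c) = dist(c, ∂M)`.
-/

set_option autoImplicit false

open Set Filter Topology Metric
open scoped OnePoint

namespace Pool.Agent.Results.MP_77ccbb_an.NonRealEquality

/-- `f_c(z) = z² + c`. -/
def f (c z : ℂ) : ℂ := z ^ 2 + c

/-- The Mandelbrot set: the `c` for which the orbit of `0` does not tend to infinity. -/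
def Mandelbrot : Set ℂ := {c | ¬ Tendsto (fun n : ℕ => ‖(f c)^[n] 0‖) atTop atTop}

/-- `f_c` on the Riemann sphere. -/
def F (c : ℂ) : OnePoint ℂ → OnePoint ℂ := OnePoint.map (f c)

/-- The semigroup `G_{c,r}` of all maps `f_{c_N} ∘ ⋯ ∘ f_{c_1}`, `N ≥ 1`, `|c_i - c| ≤ r`. -/
inductive InSemigroup (c : ℂ) (r : ℝ) : (OnePoint ℂ → OnePoint ℂ) → Prop
  | generator (c' : ℂ) (h : c' ∈ closedBall c r) : InSemigroup c r (F c')
  | comp (c' : ℂ) (h : c' ∈ closedBall c r) (g : OnePoint ℂ → OnePoint ℂ)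
      (hg : InSemigroup c r g) : InSemigroup c r (F c' ∘ g)

/-- A nonempty compact subset of the sphere that is mapped into itself by all of `G_{c,r}`. -/
def IsInvariantCompact (c : ℂ) (r : ℝ) (L : Set (OnePoint ℂ)) : Prop :=
  L.Nonempty ∧ IsCompact L ∧ ∀ g, InSemigroup c r g → g '' L ⊆ L

/-- A minimal set of `G_{c,r}`. -/
def IsMinimalSet (c : ℂ) (r : ℝ) (L : Set (OnePoint ℂ)) : Prop :=
  IsInvariantCompact c r L ∧ ∀ L', IsInvariantCompact c r L' → L' ⊆ L → L' = L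

/-- A planar minimal set. -/
def IsPlanarMinimalSet (c : ℂ) (r : ℝ) (L : Set (OnePoint ℂ)) : Prop :=
  IsMinimalSet c r L ∧ ∞ ∉ L

/-- The bifurcation radius. -/
noncomputable def bifurcationRadius (c : ℂ) : ℝ :=
  sInf {r : ℝ | 0 ≤ r ∧ ¬ ∃ L, IsPlanarMinimalSet c r L}

/-! ### Existence of minimal sets -/

theorem exists_minimal {c : ℂ} {r : ℝ} {L₀ : Set (OnePoint ℂ)} (h₀ : IsInvariantCompact c r L₀) :
    ∃ L ⊆ L₀, IsMinimalSet c r L := by
  set S : Set (Set (OnePoint ℂ)) := {L | IsInvariantCompact c r L ∧ L ⊆ L₀} with hS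
  obtain ⟨m, hm⟩ := zorn_superset S (by
    intro C hC hchain
    rcases C.eq_empty_or_nonempty with rfl | hne
    · exact ⟨L₀, ⟨h₀, subset_rfl⟩, by simp⟩
    · refine ⟨⋂₀ C, ⟨⟨?_, ?_, ?_⟩, ?_⟩, fun s hs => sInter_subset_of_mem hs⟩
      · have : Nonempty C := hne.to_subtype
        apply IsCompact.nonempty_sInter_of_directed_nonempty_isCompact_isClosed
        · intro s hs t ht
          rcases hchain.total hs ht with h | h
          · exact ⟨s, hs, subset_rfl, h⟩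
          · exact ⟨t, ht, h, subset_rfl⟩
        · exact fun U hU => (hC hU).1.1
        · exact fun U hU => (hC hU).1.2.1
        · exact fun U hU => (hC hU).1.2.1.isClosed
      · obtain ⟨s, hs⟩ := hne
        exact (hC hs).1.2.1.of_isClosed_subset
          (isClosed_sInter fun t ht => (hC ht).1.2.1.isClosed) (sInter_subset_of_mem hs)
      · rintro g hg _ ⟨x, hx, rfl⟩
        intro s hs
        exact (hC hs).1.2.2 g hg ⟨x, hx s hs, rfl⟩
      · obtain ⟨s, hs⟩ := hne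
        exact (sInter_subset_of_mem hs).trans (hC hs).2)
  refine ⟨m, hm.prop.2, hm.prop.1, fun L' hL' hsub => ?_⟩
  exact subset_antisymm hsub (hm.2 ⟨hL', hsub.trans hm.prop.2⟩ hsub)

/-- A closed disc mapped into itself by all generators yields a planar minimal set. -/
theorem exists_planar {c a : ℂ} {r R : ℝ} (hR : 0 ≤ R)
    (h : ∀ c' ∈ closedBall c r, ∀ z ∈ closedBall a R, f c' z ∈ closedBall a R) :
    ∃ L, IsPlanarMinimalSet c r L := by
  set L₀ : Set (OnePoint ℂ) := (fun z : ℂ => (z : OnePoint ℂ)) '' closedBall a R with hL₀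
  have hinv : ∀ g, InSemigroup c r g → g '' L₀ ⊆ L₀ := by
    intro g hg
    induction hg with
    | generator c' hc' =>
      rintro _ ⟨_, ⟨z, hz, rfl⟩, rfl⟩
      exact ⟨f c' z, h c' hc' z hz, rfl⟩
    | comp c' hc' g _ ih =>
      rintro _ ⟨x, hx, rfl⟩
      obtain ⟨z, hz, hzx⟩ := ih ⟨x, hx, rfl⟩
      refine ⟨f c' z, h c' hc' z hz, ?_⟩
      have hzx' : (z : OnePoint ℂ) = g x := hzx
      simp only [Function.comp_apply]
      rw [← hzx']
      rfl
  obtain ⟨L, hL, hmin⟩ := exists_minimal (c := c) (r := r) (L₀ := L₀)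
    ⟨⟨a, a, mem_closedBall_self hR, rfl⟩,
      (isCompact_closedBall a R).image OnePoint.continuous_coe, hinv⟩
  refine ⟨L, hmin, fun h => ?_⟩
  obtain ⟨z, -, hz⟩ := hL h
  exact OnePoint.coe_ne_infty z hz

/-! ### Parameters `c > 1/4` -/

theorem real_orbit {ε : ℝ} (x : ℝ) (n : ℕ) :
    ∃ y : ℝ, (f ((1 / 4 + ε : ℝ) : ℂ))^[n] (x : ℂ) = (y : ℂ) ∧ x + n * ε ≤ y := by
  induction n with
  | zero => exact ⟨x, rfl, by simp⟩
  | succ n ih =>
    obtain ⟨y, hy, hxy⟩ := ih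
    refine ⟨y ^ 2 + (1 / 4 + ε), ?_, ?_⟩
    · rw [Function.iterate_succ_apply', hy, f]
      push_cast
      ring
    · push_cast
      nlinarith [sq_nonneg (y - 1 / 2)]

theorem not_mem_mandelbrot {ε : ℝ} (hε : 0 < ε) : ((1 / 4 + ε : ℝ) : ℂ) ∉ Mandelbrot := by
  intro h
  apply h
  have h1 : Tendsto (fun n : ℕ => (n : ℝ) * ε) atTop atTop :=
    tendsto_natCast_atTop_atTop.atTop_mul_const hε
  refine tendsto_atTop_mono (fun n => ?_) h1
  obtain ⟨y, hy, hxy⟩ := real_orbit (ε := ε) 0 n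
  rw [Complex.ofReal_zero] at hy
  rw [hy, Complex.norm_real, Real.norm_eq_abs]
  exact (by linarith : (n : ℝ) * ε ≤ y).trans (le_abs_self y)

theorem hasDerivAt_iterate (c z : ℂ) (n : ℕ) :
    HasDerivAt (f c)^[n] (∏ j ∈ Finset.range n, 2 * (f c)^[j] z) z := by
  induction n with
  | zero => simpa using hasDerivAt_id z
  | succ n ih =>
    rw [Function.iterate_succ', Finset.prod_range_succ, mul_comm]
    have h1 : HasDerivAt (f c) (2 * (f c)^[n] z) ((f c)^[n] z) := by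
      have h2 := (hasDerivAt_pow 2 ((f c)^[n] z)).add_const c
      simp only [Nat.cast_ofNat, Nat.add_one_sub_one, pow_one] at h2
      exact h2
    exact h1.comp z ih

/-- For real `c > 1/4` no disc has uniformly bounded forward orbits. -/
theorem no_disc {ε : ℝ} (hε : 0 < ε) {z₀ : ℂ} {s R : ℝ} (hs : 0 < s)
    (h : ∀ n : ℕ, ∀ z ∈ ball z₀ s, ‖(f ((1 / 4 + ε : ℝ) : ℂ))^[n] z‖ ≤ R) : False := by
  set c : ℂ := ((1 / 4 + ε : ℝ) : ℂ) with hc
  set K : Set ℂ := {z | ∀ n : ℕ, ‖(f c)^[n] z‖ ≤ R} with hK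
  have hfc : Continuous (f c) := by
    unfold f
    fun_prop
  have hz₀ : z₀ ∈ K := fun n => h n z₀ (mem_ball_self hs)
  have hKcl : IsClosed K := by
    have : K = ⋂ n : ℕ, {z | ‖(f c)^[n] z‖ ≤ R} := by ext z; simp [hK]
    rw [this]
    exact isClosed_iInter fun n => isClosed_le (hfc.iterate n).norm continuous_const
  have hKc : IsCompact K := by
    apply (isCompact_closedBall (0 : ℂ) R).of_isClosed_subset hKcl
    intro z hz
    simpa using hz 0
  have hKinv : ∀ z ∈ K, f c z ∈ K := by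
    intro z hz n
    have := hz (n + 1)
    rwa [Function.iterate_succ_apply] at this
  have hKreal : ∀ z ∈ K, z.im ≠ 0 := by
    intro z hz him
    have hzr : z = (z.re : ℂ) := by
      apply Complex.ext
      · simp
      · simp [him]
    obtain ⟨n, hn⟩ := exists_nat_gt ((R - z.re) / ε)
    obtain ⟨y, hy, hxy⟩ := real_orbit (ε := ε) z.re n
    have h1 := hz n
    rw [hzr, hc, hy, Complex.norm_real, Real.norm_eq_abs] at h1
    rw [div_lt_iff₀ hε] at hn
    linarith [le_abs_self y]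
  obtain ⟨zm, hzm, hmin⟩ := hKc.exists_isMinOn ⟨z₀, hz₀⟩
    (Complex.continuous_im.abs.continuousOn (s := K))
  set η : ℝ := |zm.im| with hη
  have hη0 : 0 < η := abs_pos.2 (hKreal zm hzm)
  have hηle : ∀ z ∈ K, η ≤ |z.im| := fun z hz => hmin hz
  have hR0 : 0 < R := by
    have h1 := hz₀ 0
    have h2 := hηle z₀ hz₀
    have h3 := Complex.abs_im_le_norm z₀
    simp only [Function.iterate_zero, id] at h1
    linarith
  set κ : ℝ := √(1 + η ^ 2 / R ^ 2) with hκ
  have hκ1 : 1 < κ := by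
    rw [hκ, Real.lt_sqrt (by norm_num)]
    have : 0 < η ^ 2 / R ^ 2 := by positivity
    linarith
  have hκ2 : κ ^ 2 = 1 + η ^ 2 / R ^ 2 := Real.sq_sqrt (by positivity)
  have hiter : ∀ n : ℕ, (f c)^[n] z₀ ∈ K := by
    intro n
    induction n with
    | zero => exact hz₀
    | succ n ih => rw [Function.iterate_succ_apply']; exact hKinv _ ih
  -- one step of expansion
  have hstep : ∀ z ∈ K, κ * |(f c z).im| ≤ ‖2 * z‖ * |z.im| := by
    intro z hz
    have him : (f c z).im = 2 * z.re * z.im := by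
      rw [f, Complex.add_im, hc, Complex.ofReal_im, add_zero, sq, Complex.mul_im]
      ring
    have hzn : ‖z‖ ≤ R := by simpa using hz 0
    have hre : |z.re| ≤ R := (Complex.abs_re_le_norm z).trans hzn
    have h1 : κ * |z.re| ≤ ‖z‖ := by
      apply le_of_sq_le_sq _ (norm_nonneg z)
      rw [mul_pow, hκ2, sq_abs z.re, Complex.sq_norm, Complex.normSq_apply]
      have h2 := hηle z hz
      have h3 : η ^ 2 ≤ z.im ^ 2 := by
        rw [← sq_abs z.im]
        exact pow_le_pow_left₀ hη0.le h2 2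
      have h4 : z.re ^ 2 ≤ R ^ 2 := by
        rw [← sq_abs z.re]
        exact pow_le_pow_left₀ (abs_nonneg _) hre 2
      have h5 : η ^ 2 / R ^ 2 * z.re ^ 2 ≤ η ^ 2 := by
        rw [div_mul_eq_mul_div, div_le_iff₀ (by positivity)]
        exact mul_le_mul_of_nonneg_left h4 (by positivity)
      nlinarith
    rw [him, abs_mul, abs_mul, norm_mul]
    have h6 : |(2 : ℝ)| = 2 := by norm_num
    have h7 : ‖(2 : ℂ)‖ = 2 := by norm_num
    rw [h6, h7]
    nlinarith [mul_le_mul_of_nonneg_right h1 (abs_nonneg z.im)]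
  have hprod : ∀ n : ℕ, κ ^ n * |((f c)^[n] z₀).im| ≤
      ‖∏ j ∈ Finset.range n, 2 * (f c)^[j] z₀‖ * |z₀.im| := by
    intro n
    induction n with
    | zero => simp
    | succ n ih =>
      rw [Finset.prod_range_succ, norm_mul, Function.iterate_succ_apply']
      have h1 := hstep _ (hiter n)
      have h2 : 0 ≤ κ ^ n := by positivity
      calc κ ^ (n + 1) * |(f c ((f c)^[n] z₀)).im| = κ ^ n * (κ * |(f c ((f c)^[n] z₀)).im|) := by
            ring
        _ ≤ κ ^ n * (‖2 * (f c)^[n] z₀‖ * |((f c)^[n] z₀).im|) := mul_le_mul_of_nonneg_left h1 h2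
        _ = ‖2 * (f c)^[n] z₀‖ * (κ ^ n * |((f c)^[n] z₀).im|) := by ring
        _ ≤ ‖2 * (f c)^[n] z₀‖ * (‖∏ j ∈ Finset.range n, 2 * (f c)^[j] z₀‖ * |z₀.im|) :=
            mul_le_mul_of_nonneg_left ih (norm_nonneg _)
        _ = _ := by ring
  -- Cauchy estimate
  have hcauchy : ∀ n : ℕ, ‖∏ j ∈ Finset.range n, 2 * (f c)^[j] z₀‖ ≤ R / (s / 2) := by
    intro n
    rw [← (hasDerivAt_iterate c z₀ n).deriv]
    apply Complex.norm_deriv_le_of_forall_mem_sphere_norm_le (by positivity)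
    · apply Differentiable.diffContOnCl
      intro z
      exact (hasDerivAt_iterate c z n).differentiableAt
    · intro z hz
      apply h n z
      rw [mem_sphere] at hz
      rw [mem_ball, hz]
      linarith
  have hbound : ∀ n : ℕ, κ ^ n * η ≤ R / (s / 2) * R := by
    intro n
    calc κ ^ n * η ≤ κ ^ n * |((f c)^[n] z₀).im| :=
          mul_le_mul_of_nonneg_left (hηle _ (hiter n)) (by positivity)
      _ ≤ _ := hprod n
      _ ≤ R / (s / 2) * R := by
          apply mul_le_mul (hcauchy n) _ (abs_nonneg _) (by positivity)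
          have := hz₀ 0
          exact (Complex.abs_im_le_norm z₀).trans (by simpa using this)
  obtain ⟨n, hn⟩ := pow_unbounded_of_one_lt (R / (s / 2) * R / η) hκ1
  rw [div_lt_iff₀ hη0] at hn
  linarith [hbound n]

/-- No planar minimal set once the parameter disc contains some real `c > 1/4`. -/
theorem no_planar {c : ℂ} {r ε : ℝ} (hr : 0 < r) (hε : 0 < ε)
    (hmem : ((1 / 4 + ε : ℝ) : ℂ) ∈ closedBall c r) : ¬ ∃ L, IsPlanarMinimalSet c r L := by
  rintro ⟨L, ⟨⟨⟨x, hx⟩, hLc, hinv⟩, -⟩, hinf⟩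
  have hfin : ∀ y ∈ L, ∃ z : ℂ, y = (z : OnePoint ℂ) := by
    intro y hy
    induction y using OnePoint.rec with
    | infty => exact absurd hy hinf
    | coe z => exact ⟨z, rfl⟩
  -- `L` is bounded
  obtain ⟨R, hR⟩ : ∃ R : ℝ, ∀ z : ℂ, (z : OnePoint ℂ) ∈ L → ‖z‖ ≤ R := by
    have h1 : IsCompact ((fun z : ℂ => (z : OnePoint ℂ)) ⁻¹' L) := by
      have h2 : IsOpen Lᶜ := hLc.isClosed.isOpen_compl
      have h3 := (OnePoint.isOpen_iff_of_mem (s := Lᶜ) hinf).1 h2
      have h4 : ((fun z : ℂ => (z : OnePoint ℂ)) ⁻¹' Lᶜ)ᶜ = (fun z : ℂ => (z : OnePoint ℂ)) ⁻¹' L := by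
        ext z; simp
      have h5 := h3.2
      rwa [h4] at h5
    obtain ⟨R, hR⟩ := h1.isBounded.exists_norm_le
    exact ⟨R, fun z hz => hR z hz⟩
  obtain ⟨z, rfl⟩ := hfin x hx
  have hgen : ∀ c' ∈ closedBall c r, ∀ w : ℂ, (w : OnePoint ℂ) ∈ L →
      ((f c' w : ℂ) : OnePoint ℂ) ∈ L := by
    intro c' hc' w hw
    exact hinv _ (InSemigroup.generator c' hc') ⟨(w : OnePoint ℂ), hw, rfl⟩
  have hball : ∀ w ∈ ball (z ^ 2 + c) r, (w : OnePoint ℂ) ∈ L := by
    intro w hw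
    have h1 : w - z ^ 2 ∈ closedBall c r := by
      rw [mem_closedBall, dist_eq_norm]
      rw [mem_ball, dist_eq_norm] at hw
      have : w - z ^ 2 - c = w - (z ^ 2 + c) := by ring
      rw [this]
      exact hw.le
    have h2 := hgen _ h1 z hx
    rwa [f, add_sub_cancel] at h2
  have hit : ∀ n : ℕ, ∀ w : ℂ, (w : OnePoint ℂ) ∈ L →
      (((f ((1 / 4 + ε : ℝ) : ℂ))^[n] w : ℂ) : OnePoint ℂ) ∈ L := by
    intro n
    induction n with
    | zero => exact fun w hw => hw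
    | succ n ih =>
      intro w hw
      rw [Function.iterate_succ_apply']
      exact hgen _ hmem _ (ih w hw)
  exact no_disc hε hr fun n w hw => hR _ (hit n w (hball w hw))

/-! ### The invariant disc -/

section
variable {e : ℂ} {ρ : ℝ} (he : ‖e‖ = 1) (hre : 3 / 5 ≤ e.re) (hρ0 : 0 < ρ) (hρ : ρ ≤ 1 / 1000)
include he hre hρ0 hρ

theorem circle_ineq {v : ℂ} (hv : ‖v‖ = 1) :
    ‖f (1 / 4 - ρ * e) (1 / 2 - e / 5 + e / 5 * v) - (1 / 2 - e / 5)‖ ≤ 1 / 5 - ρ := by
  have h1 : f (1 / 4 - ρ * e) (1 / 2 - e / 5 + e / 5 * v) - (1 / 2 - e / 5) =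
      e * (v / 5 - ρ + e / 25 * (v - 1) ^ 2) := by
    rw [f]; ring
  rw [h1, norm_mul, he, one_mul]
  apply le_of_sq_le_sq _ (by linarith)
  have hpq : e.re ^ 2 + e.im ^ 2 = 1 := by
    have := Complex.sq_norm e
    rw [he, Complex.normSq_apply] at this
    linarith
  have hxy : v.re ^ 2 + v.im ^ 2 = 1 := by
    have := Complex.sq_norm v
    rw [hv, Complex.normSq_apply] at this
    linarith
  set p := e.re
  set q := e.im
  set x := v.re
  set y := v.im
  have hP : (v / 5 - ρ + e / 25 * (v - 1) ^ 2).re =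
      x / 5 - ρ + (p * ((x - 1) ^ 2 - y ^ 2) - q * (2 * (x - 1) * y)) / 25 := by
    simp [sq]
    ring
  have hQ : (v / 5 - ρ + e / 25 * (v - 1) ^ 2).im =
      y / 5 + (q * ((x - 1) ^ 2 - y ^ 2) + p * (2 * (x - 1) * y)) / 25 := by
    simp [sq]
    ring
  rw [Complex.sq_norm, Complex.normSq_apply, hP, hQ]
  have key : (x / 5 - ρ + (p * ((x - 1) ^ 2 - y ^ 2) - q * (2 * (x - 1) * y)) / 25) *
      (x / 5 - ρ + (p * ((x - 1) ^ 2 - y ^ 2) - q * (2 * (x - 1) * y)) / 25) +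
      (y / 5 + (q * ((x - 1) ^ 2 - y ^ 2) + p * (2 * (x - 1) * y)) / 25) *
      (y / 5 + (q * ((x - 1) ^ 2 - y ^ 2) + p * (2 * (x - 1) * y)) / 25) =
      (1 / 5 - ρ) ^ 2 - 2 / 5 * (1 - x) *
        (2 * p / 25 - 2 * (1 - x) / 125 - ρ - 2 * ρ / 5 * (p * x - q * y)) := by
    linear_combination (1 / 25 + ((x ^ 2 + y ^ 2 - 2 * x + 1) + (2 - 2 * x)) / 625 +
      2 / 5 * ((p * x - q * y) / 25 - 2 * p / 25) + 2 * ρ * p / 25) * hxy +
      ((x ^ 2 + y ^ 2 - 2 * x + 1) ^ 2 / 625) * hpq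
  rw [key]
  have hx1 : x ≤ 1 := by nlinarith [sq_nonneg y]
  have hx2 : -1 ≤ x := by nlinarith [sq_nonneg y]
  have hc : p * x - q * y ≤ 1 := by nlinarith [sq_nonneg (p - x), sq_nonneg (q + y)]
  have hbr : 0 ≤ 2 * p / 25 - 2 * (1 - x) / 125 - ρ - 2 * ρ / 5 * (p * x - q * y) := by
    have : ρ * (p * x - q * y) ≤ ρ := by nlinarith
    linarith
  nlinarith [mul_nonneg (by linarith : (0 : ℝ) ≤ 1 - x) hbr]

theorem disc_ineq {z : ℂ} (hz : z ∈ closedBall (1 / 2 - e / 5) (1 / 5)) :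
    ‖f (1 / 4 - ρ * e) z - (1 / 2 - e / 5)‖ ≤ 1 / 5 - ρ := by
  have he0 : e ≠ 0 := by
    rintro rfl
    simp at he
  have h5 : (1 / 5 : ℝ) ≠ 0 := by norm_num
  apply Complex.norm_le_of_forall_mem_frontier_norm_le (U := ball (1 / 2 - e / 5) (1 / 5))
    (f := fun z => f (1 / 4 - ρ * e) z - (1 / 2 - e / 5)) isBounded_ball
  · apply Differentiable.diffContOnCl
    unfold f
    fun_prop
  · intro w hw
    rw [frontier_ball _ h5, mem_sphere, dist_eq_norm] at hw
    have h1 : w = 1 / 2 - e / 5 + e / 5 * ((w - (1 / 2 - e / 5)) / (e / 5)) := by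
      field_simp
      ring
    rw [h1]
    apply circle_ineq he hre hρ0 hρ
    rw [norm_div, hw, norm_div, he]
    norm_num
  · rw [closure_ball _ h5]
    exact hz

theorem invariant_disc {c' : ℂ} (hc' : c' ∈ closedBall (1 / 4 - ρ * e) ρ) {z : ℂ}
    (hz : z ∈ closedBall (1 / 2 - e / 5) (1 / 5)) : f c' z ∈ closedBall (1 / 2 - e / 5) (1 / 5) := by
  rw [mem_closedBall, dist_eq_norm] at hc' ⊢
  have h1 := disc_ineq he hre hρ0 hρ hz
  have h2 : f c' z - (1 / 2 - e / 5) =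
      (f (1 / 4 - ρ * e) z - (1 / 2 - e / 5)) + (c' - (1 / 4 - ρ * e)) := by
    rw [f, f]; ring
  rw [h2]
  refine (norm_add_le _ _).trans ?_
  linarith

theorem mem_mandelbrot {c' : ℂ} (hc' : c' ∈ closedBall (1 / 4 - ρ * e) ρ) : c' ∈ Mandelbrot := by
  set a : ℂ := 1 / 2 - e / 5 with ha
  have hδ : ‖c' - 1 / 4‖ ≤ 2 / 1000 := by
    rw [mem_closedBall, dist_eq_norm] at hc'
    have h1 : c' - 1 / 4 = (c' - (1 / 4 - ρ * e)) - ρ * e := by ring
    rw [h1]
    refine (norm_sub_le _ _).trans ?_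
    rw [norm_mul, he, Complex.norm_real, Real.norm_eq_abs, abs_of_pos hρ0]
    linarith
  have h2 : (f c')^[2] 0 ∈ closedBall a (1 / 5) := by
    have h3 : (f c')^[2] 0 - a = (e / 5 - 3 / 16) + (c' - 1 / 4) * (3 / 2 + (c' - 1 / 4)) := by
      simp only [Function.iterate_succ, Function.iterate_zero, Function.comp_apply, id, f]
      rw [ha]; ring
    rw [mem_closedBall, dist_eq_norm, h3]
    have h4 : ‖e / 5 - 3 / 16‖ ≤ 19 / 100 := by
      apply le_of_sq_le_sq _ (by norm_num)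
      have hpq : e.re ^ 2 + e.im ^ 2 = 1 := by
        have := Complex.sq_norm e
        rw [he, Complex.normSq_apply] at this
        linarith
      have e1 : (e / 5 - 3 / 16).re = e.re / 5 - 3 / 16 := by simp
      have e2 : (e / 5 - 3 / 16).im = e.im / 5 := by simp
      rw [Complex.sq_norm, Complex.normSq_apply, e1, e2]
      nlinarith
    have h5 : ‖(c' - 1 / 4) * (3 / 2 + (c' - 1 / 4))‖ ≤ 1 / 100 := by
      rw [norm_mul]
      have h6 : ‖(3 / 2 : ℂ) + (c' - 1 / 4)‖ ≤ 2 := by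
        refine (norm_add_le _ _).trans ?_
        have : ‖(3 / 2 : ℂ)‖ = 3 / 2 := by norm_num
        rw [this]
        linarith
      nlinarith [norm_nonneg (c' - 1 / 4), norm_nonneg ((3 / 2 : ℂ) + (c' - 1 / 4))]
    refine (norm_add_le _ _).trans ?_
    linarith
  have h3 : ∀ n : ℕ, (f c')^[n + 2] 0 ∈ closedBall a (1 / 5) := by
    intro n
    induction n with
    | zero => exact h2
    | succ n ih =>
      rw [show n + 1 + 2 = (n + 2) + 1 by ring, Function.iterate_succ_apply']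
      exact invariant_disc he hre hρ0 hρ hc' ih
  intro h
  have h4 := (tendsto_add_atTop_iff_nat 2).2 h
  obtain ⟨n, hn⟩ := (h4.eventually_gt_atTop (‖a‖ + 1 / 5)).exists
  have h5 := h3 n
  rw [mem_closedBall, dist_eq_norm] at h5
  have h6 := norm_sub_norm_le ((f c')^[n + 2] 0) a
  linarith

omit hre hρ in
theorem quarter_mem : (1 / 4 : ℂ) ∈ closedBall (1 / 4 - ρ * e) ρ := by
  rw [mem_closedBall, dist_eq_norm, sub_sub_cancel, norm_mul, he, Complex.norm_real,
    Real.norm_eq_abs, abs_of_pos hρ0, mul_one]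

theorem quarter_mem_frontier : (1 / 4 : ℂ) ∈ frontier Mandelbrot := by
  rw [frontier_eq_closure_inter_closure]
  refine ⟨subset_closure (mem_mandelbrot he hre hρ0 hρ (quarter_mem he hρ0)), ?_⟩
  rw [Metric.mem_closure_iff]
  intro ε hε
  refine ⟨((1 / 4 + ε / 2 : ℝ) : ℂ), not_mem_mandelbrot (by linarith), ?_⟩
  rw [dist_eq_norm]
  have : (1 / 4 : ℂ) - ((1 / 4 + ε / 2 : ℝ) : ℂ) = ((-(ε / 2) : ℝ) : ℂ) := by push_cast; ring
  rw [this, Complex.norm_real, Real.norm_eq_abs, abs_neg, abs_of_pos (by linarith)]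
  linarith

theorem ball_disjoint {y : ℂ} (hy : y ∈ frontier Mandelbrot) : ρ ≤ dist (1 / 4 - ρ * e) y := by
  by_contra hcon
  push Not at hcon
  have h1 : ball (1 / 4 - ρ * e) ρ ⊆ interior Mandelbrot := by
    apply interior_maximal _ isOpen_ball
    intro w hw
    exact mem_mandelbrot he hre hρ0 hρ (ball_subset_closedBall hw)
  have h2 : y ∈ ball (1 / 4 - ρ * e) ρ := by rwa [mem_ball, dist_comm]
  exact hy.2 (h1 h2)

theorem dist_eq : infDist (1 / 4 - ρ * e) (frontier Mandelbrot) = ρ := by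
  have hq := quarter_mem_frontier he hre hρ0 hρ
  apply le_antisymm
  · refine (infDist_le_dist_of_mem hq).trans ?_
    have := quarter_mem he hρ0
    rwa [mem_closedBall, dist_comm] at this
  · rw [le_infDist ⟨_, hq⟩]
    exact fun y hy => ball_disjoint he hre hρ0 hρ hy

theorem bifurcationRadius_eq : bifurcationRadius (1 / 4 - ρ * e) = ρ := by
  set c : ℂ := 1 / 4 - ρ * e with hc
  have hmem : ∀ ε : ℝ, 0 < ε → ρ + ε ∈ {r : ℝ | 0 ≤ r ∧ ¬ ∃ L, IsPlanarMinimalSet c r L} := by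
    intro ε hε
    refine ⟨by linarith, no_planar (by linarith) hε ?_⟩
    rw [mem_closedBall, dist_eq_norm]
    have : ((1 / 4 + ε : ℝ) : ℂ) - c = ρ * e + ε := by rw [hc]; push_cast; ring
    rw [this]
    refine (norm_add_le _ _).trans ?_
    rw [norm_mul, he, Complex.norm_real, Complex.norm_real, Real.norm_eq_abs, Real.norm_eq_abs,
      abs_of_pos hρ0, abs_of_pos hε, mul_one]
  apply le_antisymm
  · apply le_of_forall_pos_le_add
    intro ε hε
    exact csInf_le ⟨0, fun r hr => hr.1⟩ (hmem ε hε)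
  · apply le_csInf ⟨_, hmem 1 one_pos⟩
    rintro r ⟨hr0, hr⟩
    by_contra hcon
    push Not at hcon
    apply hr
    apply exists_planar (a := 1 / 2 - e / 5) (R := 1 / 5) (by norm_num)
    intro c' hc' z hz
    exact invariant_disc he hre hρ0 hρ (closedBall_subset_closedBall hcon.le hc') hz

end

/-- **Negative answer to Q2.** For all `c = 1/4 - ρ e` with `|e| = 1`, `Re e ≥ 3/5` and
`0 < ρ ≤ 1/1000`, the parameter `c` is not in `∂M` and `r_bif(c) = dist(c, ∂M) = ρ`. In particular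
there is a `c` outside `∂M ∪ [0, 1/4]` with `r_bif(c) = dist(c, ∂M)`. -/
theorem result :
    (∀ (e : ℂ) (ρ : ℝ), ‖e‖ = 1 → 3 / 5 ≤ e.re → 0 < ρ → ρ ≤ 1 / 1000 →
      (1 / 4 - ρ * e) ∉ frontier Mandelbrot ∧ bifurcationRadius (1 / 4 - ρ * e) = ρ ∧
        infDist (1 / 4 - ρ * e) (frontier Mandelbrot) = ρ) ∧
    ∃ c : ℂ, c ∉ frontier Mandelbrot ∧ (¬ ∃ x : ℝ, x ∈ Icc (0 : ℝ) (1 / 4) ∧ c = x) ∧
      bifurcationRadius c = infDist c (frontier Mandelbrot) := by
  have main : ∀ (e : ℂ) (ρ : ℝ), ‖e‖ = 1 → 3 / 5 ≤ e.re → 0 < ρ → ρ ≤ 1 / 1000 →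
      (1 / 4 - ρ * e) ∉ frontier Mandelbrot ∧ bifurcationRadius (1 / 4 - ρ * e) = ρ ∧
        infDist (1 / 4 - ρ * e) (frontier Mandelbrot) = ρ := by
    intro e ρ he hre hρ0 hρ
    refine ⟨fun h => ?_, bifurcationRadius_eq he hre hρ0 hρ, dist_eq he hre hρ0 hρ⟩
    have := ball_disjoint he hre hρ0 hρ h
    rw [dist_self] at this
    linarith
  refine ⟨main, ?_⟩
  have he : ‖((3 + 4 * Complex.I) / 5 : ℂ)‖ = 1 := by
    rw [norm_div]
    have : ‖(3 + 4 * Complex.I : ℂ)‖ = 5 := by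
      rw [← sq_eq_sq₀ (norm_nonneg _) (by norm_num), Complex.sq_norm, Complex.normSq_apply]
      norm_num
    rw [this]
    norm_num
  have hre : 3 / 5 ≤ ((3 + 4 * Complex.I) / 5 : ℂ).re := by
    simp
  obtain ⟨h1, h2, h3⟩ := main _ (1 / 1000) he hre (by norm_num) le_rfl
  refine ⟨_, h1, ?_, h2.trans h3.symm⟩
  rintro ⟨x, -, hx⟩
  have := congrArg Complex.im hx
  simp at this

end Pool.Agent.Results.MP_77ccbb_an.NonRealEquality
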